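import Mathlib
import Pool.Agent.X330.QL.Final

set_option autoImplicit false

/-!
The quasirandom log-limit is not determined by the spectra. The definitions (`BiGraph`, `hom`,
`tB`, `hLog`, `IsCollapse`, `rr`, `QuasirandomLogLimit`, `adjM`, `spec`) are in
`Pool.Agent.X330.QL.Def`.
-/

namespace Pool.Agent.Results.MP_8fd344_co.CospectralLogLimit

open Pool.Agent.X330.QL

/-- There are two sequences of finite bipartite graphs (with labelled classes, and with at least
one edge each) which have the same spectrum for every `n`, such that the first sequence has the
quasirandom log-limit and the second one has not. -/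
theorem result : ∃ H H' : ℕ → BiGraph, (∀ n, HasEdge (H n)) ∧ (∀ n, HasEdge (H' n)) ∧
    (∀ n, spec (H n) = spec (H' n)) ∧ QuasirandomLogLimit H ∧ ¬ QuasirandomLogLimit H' :=
  main

end Pool.Agent.Results.MP_8fd344_co.CospectralLogLimit
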